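import Pool.Agent.Q67.LV.Defs
import Pool.Agent.Q85.VL.All

/-!
Project LV: double cones for the large vorticities, at a singular point in an open set.
-/

set_option autoImplicit false

open MeasureTheory Set Metric Filter Topology
open scoped ContDiff
open H459R3.NS Pool.Agent.W268.NS Pool.Agent.Q67.VD
open Pool.Agent.Q199.VD

namespace Pool.Agent.Q67.LV

open Pool.Agent.Q85.CC Pool.Agent.Q85.CL Pool.Agent.Q151.CC Pool.Agent.Q85.VL

set_option maxHeartbeats 1600000 in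
/-- The reduction to a smooth field with viscosity one at a fixed time. -/
theorem lyapM_K (hLy : StmLyapM) (hDm : StmDom) {ν T E : ℝ} {Ω : Set V} {u : ℝ → V → V}
    {p : ℝ → V → ℝ} (hν : 0 < ν) (hT : 0 < T) (h : DSl ν T E Ω u p) {T₀ κ R M : ℝ} {a : V}
    {m : ℝ → V → ℝ} (hT0 : 0 ≤ T₀) (hT₀ : T₀ < T) (hκ : 0 < κ) (hR : 0 < R) (hM : 0 ≤ M)
    (hΩ : closedBall a R ⊆ Ω) (hmc : ∀ t ∈ Ioo T₀ T, Continuous (m t))
    (hm0 : ∀ t ∈ Ioo T₀ T, ∀ y, 0 ≤ m t y) (hK : Kato T₀ T a R m)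
    (hc : ∀ t ∈ Ioo T₀ T, ∀ v : V → V, SM v →
      (∀ y, ‖y - a‖ ≤ R / 2 → vort v y = ν⁻¹ • vort (u t) y) →
      (∀ y, ‖y - a‖ ≤ R / 2 → om v y = ν⁻¹ * om (u t) y) →
      ∃ θ g : V → ℝ, (∀ y, θ y = 1 ∨ θ y = -1) ∧
        ContinuousOn θ {y | ‖y - a‖ ≤ R / 2 ∧ ν⁻¹ * M < om v y} ∧ ContDiff ℝ 1 g ∧
        (∀ y z, |g y - g z| ≤ len (y - z)) ∧
        ∀ y, ‖y - a‖ ≤ R / 2 → ν⁻¹ * M < om v y →
          κ * om v y ≤ fderiv ℝ g y (θ y • vort v y) + 2 * (ν⁻¹ * m t y + 1)) :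
    ∃ B δ : ℝ, 0 < δ ∧ ∀ t ∈ Ioo 0 T, T - δ < t → ∀ x, ‖x - a‖ ≤ δ → ‖u t x‖ ≤ B := by
  obtain ⟨E', v, q, hL, hv⟩ := hDm ν T E Ω u p hν hT h a R hR hΩ
  have hνi : 0 < ν⁻¹ := inv_pos.2 hν
  refine back hν hR hT hv (hLy (ν * T) E' (ball a R) v q
    (mul_pos hν hT) hL (ν * T₀) κ (R / 2) (ν⁻¹ * M) a (fun t y => 2 * (ν⁻¹ * m (t / ν) y + 1))
    (by positivity) (mul_lt_mul_of_pos_left hT₀ hν) hκ (by positivity) (by positivity)
    (closedBall_subset_ball (by linarith)) (kato_rem hν (by linarith) hmc hm0 hK) ?_ ?_)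
  · intro t' ht'
    have ht := time_memK hν ht'
    refine ⟨continuous_const.mul ((continuous_const.mul (hmc _ ht)).add continuous_const),
      fun y => ?_⟩
    have := mul_nonneg hνi.le (hm0 _ ht y)
    show 0 ≤ 2 * (ν⁻¹ * m (t' / ν) y + 1)
    linarith
  intro t' ht'
  have hνt : 0 < t' := (by positivity : 0 ≤ ν * T₀).trans_lt ht'.1
  have hI' : t' ∈ Ioo 0 (ν * T) := ⟨hνt, ht'.2⟩
  have ht : t' / ν ∈ Ioo T₀ T := time_memK hν ht'
  have hI : t' / ν ∈ Ioo 0 T := ⟨by positivity, ht.2⟩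
  have htν : ν * (t' / ν) = t' := by field_simp
  have hsm : SM (v t') := slice_u hL.toLEq hI'
  have hev : ∀ y, ‖y - a‖ ≤ R / 2 → ∀ᶠ z in 𝓝 y, v t' z = ν⁻¹ • u (t' / ν) z := by
    intro y hy
    refine ball_ev (a := a) (R := R) (fun z hz => ?_) (by
      rw [Metric.mem_ball, dist_eq_norm]
      linarith)
    rw [← hv _ hI z hz, htν]
  exact hc _ ht (v t') hsm (fun y hy => vort_evD (hev y hy)) (fun y hy => om_evD hνi.le (hev y hy))

/-- The double cone condition for the large vorticities, in the balls with a vorticity above the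
threshold. -/
theorem dblM (hLy : StmLyapM) (hDm : StmDom) {ν T E : ℝ} {Ω : Set V} {u : ℝ → V → V}
    {p : ℝ → V → ℝ} (hν : 0 < ν) (hT : 0 < T) (h : DSl ν T E Ω u p) {T₀ κ R M : ℝ} {a : V}
    {m : ℝ → V → ℝ} (hT0 : 0 ≤ T₀) (hT₀ : T₀ < T) (hκ : 0 < κ) (hR : 0 < R) (hM : 0 ≤ M)
    (hΩ : closedBall a R ⊆ Ω) (hmc : ∀ t ∈ Ioo T₀ T, Continuous (m t))
    (hm0 : ∀ t ∈ Ioo T₀ T, ∀ y, 0 ≤ m t y) (hK : Kato T₀ T a R m)
    (hc : ∀ t ∈ Ioo T₀ T, (∃ x, ‖x - a‖ ≤ R ∧ m t x < om (u t) x) →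
      ∃ e : V, e ⬝ᵥ e = 1 ∧ ∀ y, ‖y - a‖ ≤ R → M < om (u t) y →
        κ * om (u t) y ≤ |e ⬝ᵥ vort (u t) y|) :
    ∃ B δ : ℝ, 0 < δ ∧ ∀ t ∈ Ioo 0 T, T - δ < t → ∀ x, ‖x - a‖ ≤ δ → ‖u t x‖ ≤ B := by
  have hνi : 0 < ν⁻¹ := inv_pos.2 hν
  refine lyapM_K hLy hDm hν hT h (κ := min κ 1) hT0 hT₀ (lt_min hκ one_pos) hR hM hΩ hmc hm0 hK
    fun t ht v hv hvt hom => ?_
  have hm0' : ∀ y, 0 ≤ 2 * (ν⁻¹ * m t y + 1) := by
    intro y
    have := mul_nonneg hνi.le (hm0 t ht y)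
    linarith
  by_cases hex : ∃ x, ‖x - a‖ ≤ R ∧ m t x < om (u t) x
  · obtain ⟨e, he, hce⟩ := hc t ht hex
    have hcone : ∀ y, ‖y - a‖ ≤ R / 2 → ν⁻¹ * M < om v y →
        min κ 1 * om v y ≤ |e ⬝ᵥ vort v y| := by
      intro y hy hMy
      rw [hom y hy] at hMy ⊢
      rw [hvt y hy, dotProduct_smul, smul_eq_mul, abs_mul, abs_of_pos hνi]
      have h2 : min κ 1 * om (u t) y ≤ |e ⬝ᵥ vort (u t) y| :=
        (mul_le_mul_of_nonneg_right (min_le_left _ _) (om_nnL _ _)).trans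
          (hce y (by linarith) (lt_of_mul_lt_mul_left hMy hνi.le))
      calc min κ 1 * (ν⁻¹ * om (u t) y) = ν⁻¹ * (min κ 1 * om (u t) y) := by ring
        _ ≤ _ := mul_le_mul_of_nonneg_left h2 hνi.le
    have hcont : Continuous (fun y => e ⬝ᵥ vort v y) := by
      unfold dotProduct
      exact continuous_finsetSum _ fun i _ => continuous_const.mul (vort_contL hv i)
    classical
    refine ⟨fun y => if 0 ≤ e ⬝ᵥ vort v y then 1 else -1, fun y => e ⬝ᵥ y, fun y => ?_, ?_,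
      lin_smooth e, lin_lip he, fun y hy hMy => ?_⟩
    · by_cases h0 : 0 ≤ e ⬝ᵥ vort v y
      · left; simp [h0]
      · right; simp [h0]
    · intro y hy
      have hpos : 0 < om v y := (mul_nonneg hνi.le hM).trans_lt hy.2
      have h1 : 0 < |e ⬝ᵥ vort v y| :=
        (mul_pos (lt_min hκ one_pos) hpos).trans_le (hcone y hy.1 hy.2)
      have h2 : e ⬝ᵥ vort v y ≠ 0 := abs_pos.1 h1
      rcases lt_or_gt_of_ne h2 with h3 | h3
      · have h4 : ∀ᶠ z in 𝓝 y, e ⬝ᵥ vort v z < 0 := hcont.continuousAt.eventually (gt_mem_nhds h3)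
        refine ContinuousAt.continuousWithinAt ?_
        refine (continuousAt_const (y := (-1 : ℝ))).congr ?_
        filter_upwards [h4] with z hz
        rw [if_neg (not_le.2 hz)]
      · have h4 : ∀ᶠ z in 𝓝 y, 0 < e ⬝ᵥ vort v z := hcont.continuousAt.eventually (lt_mem_nhds h3)
        refine ContinuousAt.continuousWithinAt ?_
        refine (continuousAt_const (y := (1 : ℝ))).congr ?_
        filter_upwards [h4] with z hz
        rw [if_pos hz.le]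
    · rw [lin_deriv, dotProduct_smul, smul_eq_mul]
      have h1 := hcone y hy hMy
      have h2 := hm0' y
      have h3 : (if 0 ≤ e ⬝ᵥ vort v y then (1 : ℝ) else -1) * (e ⬝ᵥ vort v y)
          = |e ⬝ᵥ vort v y| := by
        by_cases h0 : 0 ≤ e ⬝ᵥ vort v y
        · rw [if_pos h0, one_mul, abs_of_nonneg h0]
        · rw [if_neg h0, abs_of_neg (not_le.1 h0)]
          ring
      rw [h3]
      linarith
  · push Not at hex
    refine ⟨fun _ => 1, fun _ => 0, fun _ => Or.inl rfl, continuousOn_const, contDiff_const,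
      fun y z => ?_, fun y hy _ => ?_⟩
    · rw [sub_self, abs_zero]
      exact Real.sqrt_nonneg _
    · have h4 : fderiv ℝ (fun _ : V => (0 : ℝ)) y ((1 : ℝ) • vort v y) = 0 := by simp
      rw [h4, zero_add, hom y hy]
      have h1 := mul_le_mul_of_nonneg_left (hex y (by linarith)) hνi.le
      have h2 := mul_nonneg hνi.le (hm0 t ht y)
      have h3 : min κ 1 * (ν⁻¹ * om (u t) y) ≤ ν⁻¹ * om (u t) y :=
        mul_le_of_le_one_left (mul_nonneg hνi.le (om_nnL _ _)) (min_le_right _ _)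
      linarith

/-- Double cones, at a singular point in an open set: large vorticities. -/
theorem sing_dblM (hLy : StmLyapM) {ν T E : ℝ} {Ω : Set V} {u : ℝ → V → V} {p : ℝ → V → ℝ}
    (hν : 0 < ν) (h : DSl ν T E Ω u p) {a : V} (ha : a ∈ Ω) (hs : Sing T u a) {T₀ κ R M : ℝ}
    {m : ℝ → V → ℝ} (hT0 : 0 ≤ T₀) (hT₀ : T₀ < T) (hκ : 0 < κ) (hR : 0 < R)
    (hm : Thr T₀ T a R m) :
    ∃ t ∈ Ioo T₀ T, (∃ x, ‖x - a‖ ≤ R ∧ m t x < om (u t) x) ∧
      ∀ e : V, e ⬝ᵥ e = 1 → ∃ y, ‖y - a‖ ≤ R ∧ M < om (u t) y ∧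
        |e ⬝ᵥ vort (u t) y| < κ * om (u t) y := by
  by_contra hcon
  push Not at hcon
  obtain ⟨R', hR', hRR, hsub⟩ := small_ball h.openO ha hR
  refine hs.not_bdd (dblM hLy Pool.Agent.Q284.CL.dom hν hs.pos h (M := max M 0) hT0 hT₀ hκ hR'
    (le_max_right _ _) hsub hm.cont hm.nonneg (hm.kato.mono hRR) fun t ht hex => ?_)
  obtain ⟨x, hx, hMx⟩ := hex
  obtain ⟨e, he, hy⟩ := hcon t ht ⟨x, hx.trans hRR, hMx⟩
  exact ⟨e, he, fun y hyR hMy => hy y (hyR.trans hRR) ((le_max_left _ _).trans_lt hMy)⟩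

end Pool.Agent.Q67.LV
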