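import Pool.Agent.Q67.LV.LyapM
import Pool.Agent.Q67.LV.Sing
import Pool.Agent.Q225.LV.OneD
import Pool.Agent.Q162.LV.Cube
import Pool.Agent.Q14.LV.Sum
import Pool.Agent.Q225.LV.Err
import Pool.Agent.Q285.LV.PotK
import Pool.Agent.Q14.LV.W0

/-!
Project LV: all the parts together.
-/

set_option autoImplicit false

namespace Pool.Agent.Q67.LV

open Pool.Agent

theorem stmOneD : StmOneD := Q225.LV.stmOneD
theorem stmCube : StmCube := Q162.LV.cube stmOneD
theorem stmSum : StmSum := Q14.LV.sum_all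
theorem stmErr : StmErr := Q225.LV.err stmCube stmSum
theorem stmPotK : StmPotK := Q285.LV.potK
theorem stmW0 : StmW0 := Q14.LV.w0_all
theorem stmLyapM : StmLyapM := lyapM Q85.VL.stmLyapF stmErr stmPotK stmW0

end Pool.Agent.Q67.LV
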