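import Pool.Agent.Q85.VL.Defs
import Pool.Agent.TH305.DR.Dat

/-!
Project LV (helper67, with helper85): the unoriented theorems on the vorticity at a singular point
(project CL, VL) for the LARGE vorticities only. Definitions and statements of the lemma jobs.

`V = Fin 3 → ℝ` has the maximum norm, `len` is the Euclidean length, `om v` the length of the
vorticity `vort v`, `dom v` the sum of the moduli of the first derivatives of the components of the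
vorticity (`Pool.Agent.Q67.VD`), `SM v`: all the components of `v` are smooth, `ST n v y` the sum of
the squares of the derivatives of order `n` of the vorticity matrix (`TH305/DR/Dat.lean`).
-/

set_option autoImplicit false

open MeasureTheory Set Metric
open scoped ContDiff ENNReal
open H459R3.NS Pool.Agent.W268.NS Pool.Agent.Q67.VD

namespace Pool.Agent.Q67.LV

open Pool.Agent.Q85.CC Pool.Agent.Q85.CL Pool.Agent.Q151.CC Pool.Agent.Q85.VL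

/-- LV-1. One variable: the variation of a function on the set where it is small, from a bound of
the third derivative. -/
def StmOneD : Prop := ∃ C : ℝ, 0 < C ∧ ∀ (f : ℝ → ℝ) (B M δ : ℝ), ContDiff ℝ ∞ f → 0 < B → 0 < M →
  0 < δ → (∀ s ∈ Icc (-δ) δ, |iteratedDeriv 3 f s| ≤ B) →
    ∫ s in Icc (-δ) δ ∩ {s | |f s| ≤ M}, |deriv f s| ≤ C * (M + δ * (B * M ^ 2) ^ (1 / 3 : ℝ))

/-- LV-2. The same for the vorticity in a cube, at a point which is regular at the scale `r`. -/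
def StmCube : Prop := ∀ K : ℝ, 0 < K → ∃ C : ℝ, 0 < C ∧ ∀ (v : V → V) (z : V) (δ r M : ℝ), SM v →
  0 < r → r ≤ 1 → 0 < δ → δ ≤ r → 1 ≤ M →
  (∀ y ∈ closedBall z δ, r ^ 10 * TH305.DR.ST 3 v y ≤ K) →
    ∫⁻ y in closedBall z δ ∩ {y | om v y ≤ M}, ENNReal.ofReal (dom v y)
      ≤ ENNReal.ofReal (C * M * r ^ (4 / 3 : ℝ))

/-- LV-3. Summation over the scales `r₀ / 2ᵏ`. -/
def StmSum : Prop := ∃ C : ℝ, 0 < C ∧ ∀ (x₀ : V) (r₀ A D : ℝ) (B : ℕ → Set V) (g : V → ℝ≥0∞),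
  0 < r₀ → r₀ ≤ 1 → 0 ≤ A → 0 ≤ D → Measurable g → (∀ k, MeasurableSet (B k)) →
  (∀ k, volume (B k) ≤ ENNReal.ofReal (A * (r₀ / 2 ^ k) ^ 2)) →
  (∀ k, ∀ x ∈ closedBall x₀ (2 * r₀), x ∉ B k → ∀ z, ‖z - x‖ ≤ r₀ / 2 ^ k / 24 →
    ∫⁻ y in closedBall z (r₀ / 2 ^ k / 128), g y ≤ ENNReal.ofReal (D * (r₀ / 2 ^ k) ^ (4 / 3 : ℝ))) →
  (∀ y ∈ closedBall x₀ r₀, ∃ k, ∃ x ∈ closedBall x₀ (2 * r₀), x ∉ B k ∧
    ‖x - y‖ < r₀ / 2 ^ k / 32) →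
    ∫⁻ y in closedBall x₀ r₀, g y ≤ ENNReal.ofReal (C * (1 + A) * D * r₀ ^ (1 / 3 : ℝ))

/-- LV-4. The main estimate: uniformly in the time, the variation of the vorticity on the set where
it is at most `M`. No hypothesis on the solution. -/
def StmErr : Prop := ∀ (T E : ℝ) (O : Set V) (u : ℝ → V → V) (p : ℝ → V → ℝ), 0 < T →
  LSl T E O u p → ∀ (T₀ R M : ℝ) (a : V), 0 < T₀ → T₀ < T → 0 < R → closedBall a R ⊆ O → 1 ≤ M →
    ∃ C R₁ : ℝ, 0 < C ∧ 0 < R₁ ∧ ∀ t ∈ Ioo T₀ T, ∀ x ∈ closedBall a (R / 2), ∀ r ∈ Ioc 0 R₁,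
      ∫ y in closedBall x r ∩ {y | om (u t) y ≤ M}, dom (u t) y ≤ C * r ^ (1 / 3 : ℝ)

/-- LV-5. The Newtonian potential of a small source and its bound in the Kato class. -/
def StmPotK : Prop := ∃ C : ℝ, 0 < C ∧ ∀ (σ : V → ℝ) (a : V) (ρ A : ℝ), Continuous σ → 0 < ρ →
  0 ≤ A → tsupport σ ⊆ closedBall a ρ →
  (∀ x r, 0 < r → ∫ y in closedBall x r, |σ y| ≤ A * r ^ (1 / 3 : ℝ)) →
    ∃ Z : V → V, Continuous Z ∧
      (∀ F : V → ℝ, ContDiff ℝ 1 F → HasCompactSupport F →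
        ∫ y, fderiv ℝ F y (Z y) = -∫ y, F y * σ y) ∧
      ∀ x S, 0 < S → ∫ y in closedBall x S, len (Z y) / ‖y - x‖ ≤ C * A * S ^ (1 / 3 : ℝ)

/-- LV-6. The field of the large vorticities with a sign `θ`, and its divergence. -/
def StmW0 : Prop := ∃ C : ℝ, 0 < C ∧ ∀ (v : V → V) (θ : V → ℝ) (a : V) (R M : ℝ), SM v → 0 < R →
  0 ≤ M → (∀ y, θ y = 1 ∨ θ y = -1) → ContinuousOn θ {y | ‖y - a‖ ≤ R ∧ M < om v y} →
    ∃ (W : V → V) (h σ : V → ℝ), Continuous W ∧ Continuous h ∧ Continuous σ ∧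
      (∀ y, 0 ≤ h y ∧ h y ≤ 1) ∧ (∀ y, om v y ≤ M + 1 → h y = 0) ∧
      (∀ y, M + 2 ≤ om v y → h y = 1) ∧
      (∀ y, ‖y - a‖ ≤ R / 2 → W y = (h y * θ y) • vort v y) ∧
      tsupport σ ⊆ closedBall a R ∧ (∀ y, |σ y| ≤ C * (M + 2) * dom v y) ∧
      (∀ y, σ y ≠ 0 → om v y ≤ M + 2) ∧
      ∀ F : V → ℝ, ContDiff ℝ 1 F → tsupport F ⊆ closedBall a (R / 2) →
        ∫ y, fderiv ℝ F y (W y) = -∫ y, F y * σ y

/-- LV-7. The local theorem of project VL with a majorant `f` of the vorticity. -/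
def StmLyapF : Prop := ∀ (T E : ℝ) (O : Set V) (u : ℝ → V → V) (p : ℝ → V → ℝ), 0 < T →
  LSl T E O u p → ∀ (T₀ κ R : ℝ) (a : V) (m : ℝ → V → ℝ), 0 ≤ T₀ → T₀ < T → 0 < κ → 0 < R →
    closedBall a R ⊆ O → Kato T₀ T a R m →
    (∀ t ∈ Ioo T₀ T, ∃ (f : V → ℝ) (W : V → V) (g : V → ℝ), LF κ R a f (m t) W g ∧
      ∀ y ∈ closedBall a R, om (u t) y ≤ f y ∧ f y ≤ om (u t) y + m t y) →
    ∃ B δ : ℝ, 0 < δ ∧ ∀ t ∈ Ioo (T - δ) T, 0 < t → ∀ x ∈ closedBall a δ, ‖u t x‖ ≤ B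

/-- LV-8. The local theorem with an orientation of the large vorticities. -/
def StmLyapM : Prop := ∀ (T E : ℝ) (O : Set V) (u : ℝ → V → V) (p : ℝ → V → ℝ), 0 < T →
  LSl T E O u p → ∀ (T₀ κ R M : ℝ) (a : V) (m : ℝ → V → ℝ), 0 ≤ T₀ → T₀ < T → 0 < κ → 0 < R →
    0 ≤ M → closedBall a R ⊆ O → Kato T₀ T a R m →
    (∀ t ∈ Ioo T₀ T, Continuous (m t) ∧ ∀ y, 0 ≤ m t y) →
    (∀ t ∈ Ioo T₀ T, ∃ θ g : V → ℝ, (∀ y, θ y = 1 ∨ θ y = -1) ∧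
      ContinuousOn θ {y | ‖y - a‖ ≤ R ∧ M < om (u t) y} ∧ ContDiff ℝ 1 g ∧
      (∀ y z, |g y - g z| ≤ len (y - z)) ∧
      ∀ y, ‖y - a‖ ≤ R → M < om (u t) y →
        κ * om (u t) y ≤ fderiv ℝ g y (θ y • vort (u t) y) + m t y) →
    ∃ B δ : ℝ, 0 < δ ∧ ∀ t ∈ Ioo (T - δ) T, 0 < t → ∀ x ∈ closedBall a δ, ‖u t x‖ ≤ B

end Pool.Agent.Q67.LV
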