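import Pool.Agent.Q67.LV.Defs
import Pool.Agent.Q85.VL.LyapF

/-!
Project LV: the local theorem with an orientation of the large vorticities.
-/

set_option autoImplicit false

open MeasureTheory Set Metric Filter Topology
open scoped ContDiff ENNReal
open H459R3.NS Pool.Agent.W268.NS Pool.Agent.Q67.VD
open Pool.Agent.Q199.VD

namespace Pool.Agent.Q67.LV

open Pool.Agent.Q85.CC Pool.Agent.Q85.CL Pool.Agent.Q151.CC Pool.Agent.Q85.VL

lemma dom_nonneg (v : V → V) (y : V) : 0 ≤ dom v y :=
  Finset.sum_nonneg fun _ _ => Finset.sum_nonneg fun _ _ => abs_nonneg _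

lemma dom_cont {v : V → V} (hv : SM v) : Continuous (dom v) := by
  have h1 : ∀ i j, Continuous (fun x => pd j (fun y => vort v y i) x) := by
    intro i j
    exact pd_contL (sm_vortL hv i) j
  unfold dom
  exact continuous_finsetSum _ fun i _ => continuous_finsetSum _ fun j _ => (h1 i j).abs

lemma len_contL : Continuous len := by
  unfold len dotProduct
  fun_prop

lemma len_nonneg' (b : V) : 0 ≤ len b := Real.sqrt_nonneg _

/-- The integral of the source over all cubes. -/
lemma sigma_mor {v : V → V} {σ : V → ℝ} {a : V} {R R₁ R₂ c C M : ℝ} (hv : SM v)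
    (hσ : Continuous σ) (hR₂ : 0 < R₂) (h21 : R₂ ≤ R₁) (h2R : R₂ ≤ R / 4) (hc : 0 ≤ c)
    (hC : 0 ≤ C) (hts : tsupport σ ⊆ closedBall a R₂)
    (hb : ∀ y, |σ y| ≤ c * dom v y) (hs : ∀ y, σ y ≠ 0 → om v y ≤ M)
    (hE : ∀ x ∈ closedBall a (R / 2), ∀ r ∈ Ioc 0 R₁,
      ∫ y in closedBall x r ∩ {y | om v y ≤ M}, dom v y ≤ C * r ^ (1 / 3 : ℝ)) :
    ∀ x r, 0 < r → ∫ y in closedBall x r, |σ y| ≤ c * C * r ^ (1 / 3 : ℝ) := by
  have hcs : HasCompactSupport σ :=
    (isCompact_closedBall a R₂).of_isClosed_subset (isClosed_tsupport σ) hts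
  have hint : Integrable (fun y => |σ y|) :=
    (hσ.abs).integrable_of_hasCompactSupport (hcs.comp_left (g := fun s : ℝ => |s|) abs_zero)
  have hmeas : MeasurableSet {y : V | om v y ≤ M} :=
    (isClosed_le (om_contL hv) continuous_const).measurableSet
  have key : ∀ x ∈ closedBall a (R / 2), ∀ r ∈ Ioc 0 R₁,
      ∫ y in closedBall x r, |σ y| ≤ c * C * r ^ (1 / 3 : ℝ) := by
    intro x hx r hr
    have h1 : ∫ y in closedBall x r, |σ y|
        ≤ ∫ y in closedBall x r, ({y : V | om v y ≤ M}.indicator (fun y => c * dom v y)) y := by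
      refine setIntegral_mono_on hint.integrableOn ?_ measurableSet_closedBall fun y _ => ?_
      · refine IntegrableOn.indicator ?_ hmeas
        exact ((dom_cont hv).const_mul c |>.continuousOn).integrableOn_compact
          (isCompact_closedBall _ _)
      · by_cases h0 : σ y = 0
        · rw [h0, abs_zero]
          refine indicator_nonneg (fun y _ => mul_nonneg hc (dom_nonneg v y)) y
        · rw [indicator_of_mem (show y ∈ {y : V | om v y ≤ M} from hs y h0)]
          exact hb y
    rw [setIntegral_indicator hmeas, integral_const_mul] at h1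
    refine h1.trans ?_
    rw [mul_assoc]
    exact mul_le_mul_of_nonneg_left (hE x hx r hr) hc
  intro x r hr
  have hC' : 0 ≤ c * C := mul_nonneg hc hC
  by_cases hrR : r ≤ R₂
  · by_cases hxa : ‖x - a‖ ≤ r + R₂
    · refine key x ?_ r ⟨hr, hrR.trans h21⟩
      rw [mem_closedBall, dist_eq_norm]
      linarith
    · have h0 : ∀ y ∈ closedBall x r, |σ y| = 0 := by
        intro y hy
        rw [abs_eq_zero]
        refine image_eq_zero_of_notMem_tsupport fun hy' => hxa ?_
        have h1 := hts hy'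
        rw [mem_closedBall, dist_eq_norm] at h1 hy
        have e1 : x - a = (y - a) - (y - x) := by abel
        rw [e1]
        exact (norm_sub_le _ _).trans (by linarith)
      rw [setIntegral_congr_fun measurableSet_closedBall h0, integral_zero]
      positivity
  · push Not at hrR
    have h1 : ∫ y in closedBall x r, |σ y| ≤ ∫ y, |σ y| :=
      setIntegral_le_integral hint (Eventually.of_forall fun y => abs_nonneg _)
    have h2 : ∫ y, |σ y| = ∫ y in closedBall a R₂, |σ y| := by
      rw [setIntegral_eq_integral_of_forall_compl_eq_zero]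
      intro y hy
      rw [abs_eq_zero]
      exact image_eq_zero_of_notMem_tsupport fun hy' => hy (hts hy')
    have h3 := key a (mem_closedBall_self (by linarith)) R₂ ⟨hR₂, h21⟩
    have h4 : R₂ ^ (1 / 3 : ℝ) ≤ r ^ (1 / 3 : ℝ) :=
      Real.rpow_le_rpow hR₂.le hrR.le (by norm_num)
    rw [h2] at h1
    exact h1.trans (h3.trans (mul_le_mul_of_nonneg_left h4 hC'))

lemma lip_fderiv {g : V → ℝ} (hg : ContDiff ℝ 1 g) (hlip : ∀ y z, |g y - g z| ≤ len (y - z))
    (y b : V) : |fderiv ℝ g y b| ≤ len b := by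
  have h1 : HasDerivAt (fun s : ℝ => g (y + s • b)) (fderiv ℝ g y b) 0 := by
    have h2 : HasFDerivAt g (fderiv ℝ g y) (y + (0 : ℝ) • b) := by
      rw [zero_smul, add_zero]
      exact (hg.differentiable one_ne_zero y).hasFDerivAt
    have h3 : HasDerivAt (fun s : ℝ => y + s • b) b 0 := by
      simpa using ((hasDerivAt_id (0 : ℝ)).smul_const b).const_add y
    exact h2.comp_hasDerivAt (0 : ℝ) h3
  have h4 := h1.tendsto_slope
  have h5 : Tendsto (fun s => |slope (fun s : ℝ => g (y + s • b)) 0 s|) (𝓝[≠] 0)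
      (𝓝 |fderiv ℝ g y b|) := h4.abs
  refine le_of_tendsto h5 ?_
  filter_upwards [self_mem_nhdsWithin] with s hs
  have hs0 : s ≠ 0 := hs
  have hsp : 0 < |s| := abs_pos.2 hs0
  rw [slope_def_field, sub_zero, abs_div, div_le_iff₀ hsp]
  have h6 := hlip (y + s • b) (y + (0 : ℝ) • b)
  have e1 : y + s • b - (y + (0 : ℝ) • b) = s • b := by
    rw [zero_smul, add_zero, add_sub_cancel_left]
  rw [e1, len_smulI] at h6
  rw [mul_comm]
  exact h6

lemma len_sign {c : ℝ} (hc : c = 1 ∨ c = -1) (b : V) : len (c • b) = len b := by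
  rw [len_smulI]
  rcases hc with h | h <;> rw [h] <;> simp

lemma len_sub_le' (a b : V) : len (a - b) ≤ len a + len b := by
  have h := Pool.Agent.Q61.VL.len_add_le a (-b)
  rw [← sub_eq_add_neg] at h
  have h2 : len (-b) = len b := by
    have := len_smulI (-1) b
    simpa using this
  rwa [h2] at h

set_option maxHeartbeats 1600000 in
theorem lyapM (hF : Pool.Agent.Q85.VL.StmLyapF) (hErr : StmErr) (hPot : StmPotK) (hW0 : StmW0) :
    StmLyapM := by
  intro T E O u p hT hu T₀ κ₀ R M a m hT₀ hT₀T hκ₀ hR hM hO hm hmc hyp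
  obtain ⟨κ, hκd⟩ : ∃ κ, κ = min κ₀ 1 := ⟨_, rfl⟩
  have hκ : 0 < κ := by rw [hκd]; exact lt_min hκ₀ one_pos
  have hκ1 : κ ≤ 1 := by rw [hκd]; exact min_le_right _ _
  have hκκ : κ ≤ κ₀ := by rw [hκd]; exact min_le_left _ _
  obtain ⟨T₁, hT₁⟩ : ∃ T₁, T₁ = (T₀ + T) / 2 := ⟨_, rfl⟩
  have hT₁0 : 0 < T₁ := by rw [hT₁]; linarith
  have hT₁T : T₁ < T := by rw [hT₁]; linarith
  have hT₀₁ : T₀ < T₁ := by rw [hT₁]; linarith
  obtain ⟨C, R₁, hC, hR₁, hE⟩ := hErr T E O u p hT hu T₁ R (M + 2) a hT₁0 hT₁T hR hO (by linarith)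
  obtain ⟨CP, hCP, hPot⟩ := hPot
  obtain ⟨CW, hCW, hW0⟩ := hW0
  obtain ⟨R₂, hR₂d⟩ : ∃ R₂, R₂ = min R₁ (R / 4) := ⟨_, rfl⟩
  have hR₂ : 0 < R₂ := by rw [hR₂d]; exact lt_min hR₁ (by positivity)
  have h21 : R₂ ≤ R₁ := by rw [hR₂d]; exact min_le_left _ _
  have h2R : R₂ ≤ R / 4 := by rw [hR₂d]; exact min_le_right _ _
  obtain ⟨A, hAd⟩ : ∃ A, A = CW * (M + 2 + 2) * C := ⟨_, rfl⟩
  have hA : 0 ≤ A := by rw [hAd]; positivity
  have hIoo : ∀ t ∈ Ioo T₁ T, t ∈ Ioo 0 T := fun t ht => ⟨hT₁0.trans ht.1, ht.2⟩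
  have hIoo' : ∀ t ∈ Ioo T₁ T, t ∈ Ioo T₀ T := fun t ht => ⟨hT₀₁.trans ht.1, ht.2⟩
  -- the fields at a fixed time
  have hfix : ∀ t ∈ Ioo T₁ T, ∃ (W Z : V → V) (g : V → ℝ), Continuous Z ∧
      (∀ x S, 0 < S → ∫ y in closedBall x S, len (Z y) / ‖y - x‖ ≤ CP * A * S ^ (1 / 3 : ℝ)) ∧
      LF κ (R₂ / 2) a (fun y => om (u t) y + len (Z y))
        (fun y => m t y + (M + 2) + 2 * len (Z y)) W g := by
    intro t ht
    obtain ⟨θ, g, hθ, hθc, hgs, hgl, hco⟩ := hyp t (hIoo' t ht)
    have hsm := slice_u hu.toLEq (hIoo t ht)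
    obtain ⟨W₀, h, σ, hWc, hhc, hσc, hh01, hh0, hh1, hWe, hσs, hσb, hσ0, hdiv⟩ :=
      hW0 (u t) θ a R₂ M hsm hR₂ hM hθ (hθc.mono (by
        rintro y ⟨hy1, hy2⟩
        exact ⟨by linarith, hy2⟩))
    have hmor := sigma_mor (R := R) (C := C) (M := M + 2) (c := CW * (M + 2)) hsm hσc hR₂ h21 h2R
      (by positivity) hC.le hσs hσb hσ0 (hE t ht)
    obtain ⟨Z, hZc, hZd, hZk⟩ := hPot σ a R₂ A hσc hR₂ hA hσs (fun x r hr => by
      refine (hmor x r hr).trans ?_
      have h1 : 0 ≤ C * r ^ (1 / 3 : ℝ) := by positivity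
      rw [hAd]
      nlinarith)
    refine ⟨fun y => W₀ y - Z y, Z, g, hZc, hZk, ⟨⟨hWc.sub hZc, ?_⟩, ?_, ?_, ?_, ?_, hgs, hgl, ?_⟩⟩
    · intro F hF hts
      have hts' : tsupport F ⊆ closedBall a R₂ :=
        hts.trans (closedBall_subset_closedBall (by linarith))
      have hcs : HasCompactSupport F :=
        (isCompact_closedBall a (R₂ / 2)).of_isClosed_subset (isClosed_tsupport F) hts
      have h0 : ∀ y, y ∉ closedBall a (R₂ / 2) → fderiv ℝ F y (W₀ y - Z y) = 0 := by
        intro y hy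
        have h2 : fderiv ℝ F y = 0 := by
          by_contra hc
          exact hy (hts (support_fderiv_subset ℝ hc))
        rw [h2]
        rfl
      rw [setIntegral_eq_integral_of_forall_compl_eq_zero h0]
      have e1 : ∀ y, fderiv ℝ F y (W₀ y - Z y) = fderiv ℝ F y (W₀ y) - fderiv ℝ F y (Z y) :=
        fun y => map_sub _ _ _
      have hfc : Continuous (fun y => fderiv ℝ F y) := hF.continuous_fderiv one_ne_zero
      have i1 : Integrable (fun y => fderiv ℝ F y (W₀ y)) :=
        (hfc.clm_apply hWc).integrable_of_hasCompactSupport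
          ((hcs.fderiv ℝ).mono (fun y hy hc => hy (by
            show fderiv ℝ F y (W₀ y) = 0
            rw [hc]; rfl)))
      have i2 : Integrable (fun y => fderiv ℝ F y (Z y)) :=
        (hfc.clm_apply hZc).integrable_of_hasCompactSupport
          ((hcs.fderiv ℝ).mono (fun y hy hc => hy (by
            show fderiv ℝ F y (Z y) = 0
            rw [hc]; rfl)))
      simp only [e1]
      rw [integral_sub i1 i2, hdiv F hF hts, hZd F hF hcs, sub_self]
    · exact (om_contL hsm).add (len_contL.comp hZc)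
    · exact ((hmc t (hIoo' t ht)).1.add continuous_const).add
        (continuous_const.mul (len_contL.comp hZc))
    · intro y
      have h1 := (hmc t (hIoo' t ht)).2 y
      have h2 := len_nonneg' (Z y)
      positivity
    · intro y hy
      rw [mem_closedBall, dist_eq_norm] at hy
      refine (len_sub_le' _ _).trans (add_le_add ?_ le_rfl)
      rw [hWe y hy, mul_smul, len_smulI, len_sign (hθ y), abs_of_nonneg (hh01 y).1]
      exact mul_le_of_le_one_left (om_nnL _ _) (hh01 y).2
    · intro y hy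
      rw [mem_closedBall, dist_eq_norm] at hy
      have hom := om_nnL (u t) y
      have hl := len_nonneg' (Z y)
      have hm0 := (hmc t (hIoo' t ht)).2 y
      obtain ⟨hh0', hh1'⟩ := hh01 y
      have e1 : fderiv ℝ g y (W₀ y - Z y)
          = h y * fderiv ℝ g y (θ y • vort (u t) y) - fderiv ℝ g y (Z y) := by
        rw [map_sub, hWe y hy, mul_smul, map_smul, smul_eq_mul]
      have h2 := (abs_le.1 (lip_fderiv hgs hgl y (Z y))).2
      have h3 : h y * (κ * om (u t) y) - m t y ≤ h y * fderiv ℝ g y (θ y • vort (u t) y) := by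
        by_cases hhy : h y = 0
        · rw [hhy]
          simp only [zero_mul]
          linarith
        · have h4 : M < om (u t) y := by
            by_contra hcon
            exact hhy (hh0 y (by linarith [not_lt.1 hcon]))
          have h5 := hco y (by linarith) h4
          have h6 : κ * om (u t) y ≤ κ₀ * om (u t) y := mul_le_mul_of_nonneg_right hκκ hom
          have h7 : h y * (κ * om (u t) y - m t y) ≤ h y * fderiv ℝ g y (θ y • vort (u t) y) :=
            mul_le_mul_of_nonneg_left (by linarith) hh0'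
          have h8 : h y * m t y ≤ m t y := mul_le_of_le_one_left hm0 hh1'
          linarith
      have h9 : (1 - h y) * (κ * om (u t) y) ≤ M + 2 := by
        by_cases hb : M + 2 ≤ om (u t) y
        · rw [hh1 y hb]
          linarith
        · push Not at hb
          have h10 : κ * om (u t) y ≤ om (u t) y := mul_le_of_le_one_left hom hκ1
          have h11 : (1 - h y) * (κ * om (u t) y) ≤ 1 * (κ * om (u t) y) :=
            mul_le_mul_of_nonneg_right (by linarith) (by positivity)
          linarith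
      have h12 : κ * len (Z y) ≤ len (Z y) := mul_le_of_le_one_left hl hκ1
      show κ * (om (u t) y + len (Z y)) ≤ fderiv ℝ g y (W₀ y - Z y)
        + (m t y + (M + 2) + 2 * len (Z y))
      rw [e1]
      have h13 : κ * (om (u t) y + len (Z y)) = h y * (κ * om (u t) y)
        + (1 - h y) * (κ * om (u t) y) + κ * len (Z y) := by ring
      rw [h13]
      linarith
  choose! W Z g hZc hZk hLF using hfix
  refine hF T E O u p hT hu T₁ κ (R₂ / 2) a (fun t y => m t y + (M + 2) + 2 * len (Z t y))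
    hT₁0.le hT₁T hκ (by positivity) ((closedBall_subset_closedBall (by linarith)).trans hO) ?_ ?_
  · -- the Kato class
    intro μ hμ
    obtain ⟨S₁, hS₁, h1⟩ := hm (μ / 3) (by positivity)
    obtain ⟨S₂, hS₂, h2⟩ := inv_small (μ / (3 * (M + 2))) (by positivity)
    obtain ⟨S₃, hS₃, h3⟩ : ∃ S₃ : ℝ, 0 < S₃ ∧ ∀ S, 0 < S → S ≤ S₃ →
        CP * A * S ^ (1 / 3 : ℝ) ≤ μ / 6 := by
      refine ⟨(μ / (6 * (CP * A + 1))) ^ 3, by positivity, fun S hS hSS => ?_⟩
      have e1 : S ^ (1 / 3 : ℝ) ≤ μ / (6 * (CP * A + 1)) := by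
        have e2 : ((μ / (6 * (CP * A + 1))) ^ 3 : ℝ) ^ (1 / 3 : ℝ) = μ / (6 * (CP * A + 1)) := by
          rw [← Real.rpow_natCast, ← Real.rpow_mul (by positivity)]
          norm_num
        rw [← e2]
        exact Real.rpow_le_rpow hS.le hSS (by norm_num)
      have e3 : CP * A * S ^ (1 / 3 : ℝ) ≤ CP * A * (μ / (6 * (CP * A + 1))) :=
        mul_le_mul_of_nonneg_left e1 (by positivity)
      refine e3.trans ?_
      rw [mul_div_assoc', div_le_div_iff₀ (by positivity) (by norm_num)]
      have : 0 ≤ CP * A := by positivity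
      nlinarith
    refine ⟨min S₁ (min S₂ S₃), lt_min hS₁ (lt_min hS₂ hS₃), fun t ht x S hS hSS hxS => ?_⟩
    have hS1 : S ≤ S₁ := hSS.trans (min_le_left _ _)
    have hS2 : S ≤ S₂ := hSS.trans ((min_le_right _ _).trans (min_le_left _ _))
    have hS3 : S ≤ S₃ := hSS.trans ((min_le_right _ _).trans (min_le_right _ _))
    have q1 := h1 t (hIoo' t ht) x S hS hS1 (by linarith)
    have q2 : ∫ y in closedBall x S, 1 / ‖y - x‖ ≤ μ / (3 * (M + 2)) := by
      refine (kato_mono (m := fun _ => 1) continuous_const (fun _ => zero_le_one) x hS2).trans ?_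
      rw [inv_trans]
      exact h2
    have q3 := (hZk t ht x S hS).trans (h3 S hS hS3)
    have e1 : ∀ y, (m t y + (M + 2) + 2 * len (Z t y)) / ‖y - x‖
        = (m t y / ‖y - x‖ + (M + 2) * (1 / ‖y - x‖)) + 2 * (len (Z t y) / ‖y - x‖) := by
      intro y
      ring
    simp only [e1]
    have i1 := int_inv x S (hmc t (hIoo' t ht)).1
    have i2 := int_inv x S (m := fun _ => 1) continuous_const
    have i3 := int_inv x S (len_contL.comp (hZc t ht))
    have i3' : IntegrableOn (fun y => len (Z t y) / ‖y - x‖) (closedBall x S) := i3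
    have i2' : IntegrableOn (fun y => (M + 2) * (1 / ‖y - x‖)) (closedBall x S) := i2.const_mul _
    have i12 : IntegrableOn (fun y => m t y / ‖y - x‖ + (M + 2) * (1 / ‖y - x‖))
        (closedBall x S) := i1.add i2'
    have i3'' : IntegrableOn (fun y => 2 * (len (Z t y) / ‖y - x‖)) (closedBall x S) :=
      i3'.const_mul _
    rw [integral_add i12 i3'', integral_add i1 i2', integral_const_mul, integral_const_mul]
    have q4 : (M + 2) * ∫ y in closedBall x S, 1 / ‖y - x‖ ≤ μ / 3 := by
      refine (mul_le_mul_of_nonneg_left q2 (by linarith)).trans (le_of_eq ?_)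
      field_simp
    linarith
  · intro t ht
    refine ⟨_, _, _, hLF t ht, fun y _ => ⟨?_, ?_⟩⟩
    · have := len_nonneg' (Z t y)
      show om (u t) y ≤ om (u t) y + len (Z t y)
      linarith
    · have h1 := len_nonneg' (Z t y)
      have h2 := (hmc t (hIoo' t ht)).2 y
      show om (u t) y + len (Z t y) ≤ om (u t) y + (m t y + (M + 2) + 2 * len (Z t y))
      linarith

end Pool.Agent.Q67.LV
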